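import Mathlib
import Pool.Agent.R353.LM.Asm3
import Pool.Agent.R353.LM.N2

/-!
# Analytic matrix functions separating Liouville matrices (MP_4d0c5f_nt)

The answer to Q1.

* Part (1), the functional calculus version, holds for all sequences: there are Liouville matrices `A = S⁻¹ diag(v) S`
  with eigenvalues `v i` in `I`, as close to `0` as we like, such that all `f_k(A) = S⁻¹ diag(f_k(v)) S` are Liouville
  matrices and no `g_k(A) = S⁻¹ diag(g_k(v)) S` is one.
* Part (2): Q1 with Taylor series is true as soon as the radii of convergence are bounded below, in particular for a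
  single pair `f`, `g` and for finite families.
* Part (3): if the radii of convergence may tend to `0`, then Q1 fails as written, in a trivial way: there are sequences
  such that only nilpotent matrices `A` are in the domain of all `f_k`, and `g_k(A) = A` for all nilpotent `A`.

Proof of (1). In a block of size two `A` has the left eigenvectors `(1, -L)`, `(1, -M)` with eigenvalues `x`, `y`; the other
eigenvalues are `x`. Almost all `x` satisfy `|w₀ + w₁ f_k(x) + w₂ g_i(x) + w₃ f_k(x) g_i(x)| ≥ c ‖w‖ ^ (-24)` for all integer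
vectors `w ≠ 0`, all `i` and all `k` (also for the identity in place of `f_k`), `c = c(x, k, i) > 0`; the exponent does
not depend on `k`, `i`. Then `L`, `M` are constructed as limits of `(a - Q f_k(x)) / b`, `(a - Q f_k(y)) / b`, where
each function `f_k` and the identity is used infinitely often, such that `1, L, g_i(x), L g_i(x)` stay Diophantine.

The parts were proved together with helper209 (Diophantine property near regular points), helper916 (Wronskians) and
helper394 (Taylor series, part (3)).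
-/

set_option autoImplicit false

namespace Pool.Agent.Results.MP_4d0c5f_nt.SeparatingMatrices

open Filter Topology

/-- an integer vector as a real vector -/
def toReal {n : ℕ} (y : Fin n → ℤ) : Fin n → ℝ := fun i => (y i : ℝ)

/-- Liouville matrices (sup-norms): (a) `A q ≠ p` for all integer vectors `q`, `p`, not both zero, and (b) for every
`N > 0` there are integer vectors `q`, `p` with `‖q‖ > 1` and `‖A q - p‖ < ‖q‖ ^ (-N)`. (With `‖q‖ = 1` allowed,
condition (b) would be satisfied by every matrix.) -/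
def IsLiouville {n : ℕ} (A : Matrix (Fin n) (Fin n) ℝ) : Prop :=
  (∀ q p : Fin n → ℤ, (q ≠ 0 ∨ p ≠ 0) → A.mulVec (toReal q) ≠ toReal p) ∧
    ∀ N : ℝ, 0 < N → ∃ q p : Fin n → ℤ, 1 < ‖toReal q‖ ∧
      ‖A.mulVec (toReal q) - toReal p‖ < ‖toReal q‖ ^ (-N)

/-- `B` is the value at `A` of the matrix extension of `f`: the series `∑ c_j A ^ j`, with the Taylor coefficients
`c_j` of `f` at `0`, converges to `B`. -/
def IsValue {n : ℕ} (f : ℝ → ℝ) (A B : Matrix (Fin n) (Fin n) ℝ) : Prop :=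
  Tendsto (fun m : ℕ => ∑ j ∈ Finset.range m, (iteratedDeriv j f 0 / (j.factorial : ℝ)) • A ^ j) atTop (𝓝 B)

/-- `f` coincides on `I` with `(a h + b) / (c h + d)` for some real `a, b, c, d` with `(c, d) ≠ (0, 0)`. -/
def Moebius (I : Set ℝ) (f h : ℝ → ℝ) : Prop :=
  ∃ a b c d : ℝ, (c ≠ 0 ∨ d ≠ 0) ∧ ∀ z ∈ I, c * h z + d ≠ 0 ∧ f z = (a * h z + b) / (c * h z + d)

/-- the hypotheses of the problem: all functions are analytic on `I`, (i) no `g k` is a Moebius function of the
identity, (ii) no `f k₁` is a Moebius function of some `g k₂`. -/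
def Admissible (I : Set ℝ) (f g : ℕ → ℝ → ℝ) : Prop :=
  (∀ k, AnalyticOnNhd ℝ (f k) I) ∧ (∀ k, AnalyticOnNhd ℝ (g k) I) ∧
    (∀ k, ¬ Moebius I (g k) id) ∧ ∀ k₁ k₂, ¬ Moebius I (f k₁) (g k₂)

/-- the Taylor series at `0` of all `f k`, `g k` converge for `|z| < ρ` with a common `ρ > 0` -/
def CommonRadius (f g : ℕ → ℝ → ℝ) : Prop :=
  ∃ ρ : ℝ, 0 < ρ ∧ ∀ k, ∀ z : ℝ, |z| < ρ →
    (Summable fun j : ℕ => iteratedDeriv j (f k) 0 / (j.factorial : ℝ) * z ^ j) ∧
      Summable fun j : ℕ => iteratedDeriv j (g k) 0 / (j.factorial : ℝ) * z ^ j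

theorem result :
    (∀ (n : ℕ) (I : Set ℝ) (f g : ℕ → ℝ → ℝ), 2 ≤ n → IsOpen I → IsPreconnected I → (0 : ℝ) ∈ I →
      Admissible I f g →
      (∀ ρ : ℝ, 0 < ρ → ∃ (S : Matrix (Fin n) (Fin n) ℝ) (v : Fin n → ℝ),
        IsUnit S ∧ (∀ i, v i ∈ I ∧ |v i| < ρ) ∧ IsLiouville (S⁻¹ * Matrix.diagonal v * S) ∧
        ∀ k, IsLiouville (S⁻¹ * Matrix.diagonal (fun i => f k (v i)) * S) ∧
          ¬ IsLiouville (S⁻¹ * Matrix.diagonal (fun i => g k (v i)) * S)) ∧
      ((CommonRadius f g ∨ ((Set.range f).Finite ∧ (Set.range g).Finite)) →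
        ∃ A : Matrix (Fin n) (Fin n) ℝ, IsLiouville A ∧
          ∀ k, (∃ B, IsValue (f k) A B ∧ IsLiouville B) ∧ ∃ B, IsValue (g k) A B ∧ ¬ IsLiouville B)) ∧
    ∀ n : ℕ, ∃ f g : ℕ → ℝ → ℝ, Admissible Set.univ f g ∧
      ∀ A : Matrix (Fin n) (Fin n) ℝ, (∀ k, ∃ B, IsValue (f k) A B) → ∀ k B, IsValue (g k) A B → B = A := by
  constructor
  · rintro n I f g hn hIo hIc h0 ⟨hf, hg, hi, hii⟩
    refine ⟨fun ρ hρ => Pool.Agent.R353.LM.main_calc n hn I f g hIo hIc h0 hf hg hi hii ρ hρ, fun h => ?_⟩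
    have key : ∃ A : Matrix (Fin n) (Fin n) ℝ, Pool.Agent.R353.LM.IsLiouville A ∧
        ∀ k, (∃ B, Pool.Agent.R353.LM.IsValue (f k) A B ∧ Pool.Agent.R353.LM.IsLiouville B) ∧
          (∃ B, Pool.Agent.R353.LM.IsValue (g k) A B ∧ ¬ Pool.Agent.R353.LM.IsLiouville B) := by
      rcases h with ⟨ρ, hρ, hs⟩ | ⟨h1, h2⟩
      · exact Pool.Agent.R353.LM.main_radius n hn I f g hIo hIc h0 hf hg hi hii ρ hρ
          (fun k z hz => (hs k z hz).1) (fun k z hz => (hs k z hz).2)
      · exact Pool.Agent.R353.LM.main_finite n hn I f g hIo hIc h0 hf hg hi hii h1 h2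
    obtain ⟨A, hA, hk⟩ := key
    refine ⟨A, hA, fun k => ?_⟩
    obtain ⟨⟨B, hB, hB'⟩, ⟨C, hC, hC'⟩⟩ := hk k
    exact ⟨⟨B, hB.isLimit, hB'⟩, ⟨C, hC.isLimit, hC'⟩⟩
  · intro n
    obtain ⟨f, g, hf, hg, hi, hii, h⟩ := Pool.Agent.R353.LM.n2 n
    exact ⟨f, g, ⟨hf, hg, hi, hii⟩, h⟩

end Pool.Agent.Results.MP_4d0c5f_nt.SeparatingMatrices
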